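import Pool.Agent.H409R3.Ph1.Num

/-! Phase 1: the fixed prefix of six letters. -/

set_option autoImplicit false

namespace Pool.Agent.H409R3.Ph1
open Finset Pool.Agent.H378R3.ND
open scoped Classical

noncomputable section

theorem pick2 (S : Finset ℕ) (h : 3 ≤ S.card) (a b : ℕ) : ∃ x ∈ S, x ≠ a ∧ x ≠ b := by
  by_contra hc
  push Not at hc
  have : S ⊆ {a, b} := by
    intro x hx
    by_cases h1 : x = a
    · simp [h1]
    · simp [hc x hx h1]
  have h2 := card_le_card this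
  have h3 : ({a, b} : Finset ℕ).card ≤ 2 := card_le_two
  omega

theorem card_er {α : ℕ} {L : ℕ → Finset ℕ} (hL : ∀ k, (L k).card = 4) (k : ℕ) :
    3 ≤ ((L k).erase α).card := by
  have := pred_card_le_card_erase (s := L k) (a := α)
  rw [hL] at this
  exact this

/-- The prefix: letters from the lists without `α`, the condition `L0`, square-free, and
`q 5 ≠ q 3`. -/
theorem exists_prefix (α : ℕ) (L : ℕ → Finset ℕ) (hL : ∀ k, (L k).card = 4) :
    ∃ q : ℕ → ℕ, (∀ i < 6, q i ∈ (L i).erase α) ∧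
      (q 0 ≠ q 1 ∧ q 0 ≠ q 2 ∧ q 0 ≠ q 3 ∧ ¬ (q 0 = q 4 ∧ q 1 ≠ q 3)) ∧
      (∀ m < 6, ∀ t, ¬ sqAt t m q) ∧ q 5 ≠ q 3 ∧ q 1 ≠ q 2 := by
  obtain ⟨q0, h0, -, -⟩ := pick2 _ (card_er (α := α) hL 0) 0 0
  obtain ⟨q1, h1, n1, -⟩ := pick2 _ (card_er (α := α) hL 1) q0 q0
  obtain ⟨q2, h2, n2, n2'⟩ := pick2 _ (card_er (α := α) hL 2) q0 q1
  obtain ⟨q3, h3, n3, n3'⟩ := pick2 _ (card_er (α := α) hL 3) q0 q2
  obtain ⟨q4, h4, n4, n4'⟩ := pick2 _ (card_er (α := α) hL 4) q3 (if q1 = q3 then q2 else q0)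
  obtain ⟨q5, h5, n5, n5'⟩ := pick2 _ (card_er (α := α) hL 5) q4 q3
  let q : ℕ → ℕ := fun i => if i = 0 then q0 else if i = 1 then q1 else if i = 2 then q2 else
    if i = 3 then q3 else if i = 4 then q4 else q5
  have e0 : q 0 = q0 := rfl
  have e1 : q 1 = q1 := rfl
  have e2 : q 2 = q2 := rfl
  have e3 : q 3 = q3 := rfl
  have e4 : q 4 = q4 := rfl
  have e5 : q 5 = q5 := rfl
  refine ⟨q, ?_, ⟨?_, ?_, ?_, ?_⟩, ?_, ?_, ?_⟩
  · intro i hi
    have : i = 0 ∨ i = 1 ∨ i = 2 ∨ i = 3 ∨ i = 4 ∨ i = 5 := by omega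
    rcases this with rfl | rfl | rfl | rfl | rfl | rfl
    · rw [e0]; exact h0
    · rw [e1]; exact h1
    · rw [e2]; exact h2
    · rw [e3]; exact h3
    · rw [e4]; exact h4
    · rw [e5]; exact h5
  · rw [e0, e1]; exact n1.symm
  · rw [e0, e2]; exact n2.symm
  · rw [e0, e3]; exact n3.symm
  · rintro ⟨ha, hb⟩
    rw [e0, e4] at ha
    rw [e1, e3] at hb
    rw [if_neg hb] at n4'
    exact n4' ha.symm
  · intro m hm t ⟨ht1, ht2, hs⟩
    have ht : t = 1 ∨ t = 2 ∨ t = 3 := by omega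
    rcases ht with rfl | rfl | rfl
    · have := hs 0 (by norm_num)
      have hm' : m = 1 ∨ m = 2 ∨ m = 3 ∨ m = 4 ∨ m = 5 := by omega
      rcases hm' with rfl | rfl | rfl | rfl | rfl
      · norm_num at this; rw [e0, e1] at this; exact n1 this.symm
      · norm_num at this; rw [e1, e2] at this; exact n2' this.symm
      · norm_num at this; rw [e2, e3] at this; exact n3' this.symm
      · norm_num at this; rw [e3, e4] at this; exact n4 this.symm
      · norm_num at this; rw [e4, e5] at this; exact n5 this.symm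
    · have a0 := hs 0 (by norm_num)
      have a1 := hs 1 (by norm_num)
      have hm' : m = 3 ∨ m = 4 ∨ m = 5 := by omega
      rcases hm' with rfl | rfl | rfl
      · norm_num at a0 a1; rw [e0, e2] at a0; exact n2 a0.symm
      · norm_num at a0 a1
        rw [e1, e3] at a0
        rw [e2, e4] at a1
        rw [if_pos a0] at n4'
        exact n4' a1.symm
      · norm_num at a0 a1
        rw [e3, e5] at a1
        exact n5' a1.symm
    · have a0 := hs 0 (by norm_num)
      have hm' : m = 5 := by omega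
      subst hm'
      norm_num at a0
      rw [e0, e3] at a0
      exact n3 a0.symm
  · rw [e5, e3]; exact n5'
  · rw [e1, e2]; exact n2'.symm

/-- the prefix gives the word of length `6` of phase 1, if the window condition holds there -/
theorem prefix_mem {α : ℕ} {L : ℕ → Finset ℕ} {win : ℕ → (ℕ → ℕ) → Prop} {q : ℕ → ℕ}
    (hw : Local win) (hwin : ∀ m < 6, win m q) (hq : ∀ m < 6, ∀ t, ¬ sqAt t m q) :
    trunc 6 q ∈ W (ok α L win) (ls α L q) 6 := by
  refine trunc_mem (local_ok hw) (fun k hk => ?_) (fun p hp => ?_)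
  · unfold ls
    rw [if_pos hk]
    exact mem_singleton_self _
  · refine ⟨hq p hp, hwin p hp, ?_⟩
    rintro ⟨h, _⟩
    omega

end
end Pool.Agent.H409R3.Ph1
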