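import Pool.Agent.H378R3.ND.Frame

/-! Phase 1 of the leg growth for S12077: `α`-free words (plan of helper378), counting inequalities. -/

set_option autoImplicit false

namespace Pool.Agent.H409R3.Ph1
open Finset Pool.Agent.H378R3.ND
open scoped Classical

noncomputable section

/-- square of half-length `t` ending at place `m` -/
def sqAt (t m : ℕ) (c : ℕ → ℕ) : Prop :=
  1 ≤ t ∧ 2 * t ≤ m + 1 ∧ ∀ i < t, c (m + 1 - 2 * t + i) = c (m + 1 - t + i)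

/-- rule `X` is violated at the place `m` -/
def Xbad (α : ℕ) (L : ℕ → Finset ℕ) (m : ℕ) (c : ℕ → ℕ) : Prop :=
  6 ≤ m ∧ α ∉ L m ∧ α ∈ L (m + 1) ∧
    c m = c (m - 4) ∧ c (m - 1) = c (m - 3) ∧ c (m - 1) = c (m - 5) ∧ c (m - 2) = c (m - 6)

/-- the local condition of phase 1 -/
def ok (α : ℕ) (L : ℕ → Finset ℕ) (win : ℕ → (ℕ → ℕ) → Prop) (m : ℕ) (c : ℕ → ℕ) : Prop :=
  (∀ t, ¬ sqAt t m c) ∧ win m c ∧ ¬ Xbad α L m c

/-- the lists of phase 1: a fixed prefix of six letters, then the lists without `α` -/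
def ls (α : ℕ) (L : ℕ → Finset ℕ) (q : ℕ → ℕ) (m : ℕ) : Finset ℕ :=
  if m < 6 then {q m} else (L m).erase α

/-- pattern words of length `m`: `α` may be put at the place `m` -/
def pat (m : ℕ) (c : ℕ → ℕ) : Prop :=
  c (m - 1) = c (m - 3) ∨ c (m - 1) = c (m - 4) ∨ (c (m - 1) = c (m - 5) ∧ c (m - 2) ≠ c (m - 4))

/-- words of length `m` ending `xyx` -/
def rep (m : ℕ) (c : ℕ → ℕ) : Prop := c (m - 1) = c (m - 3)

/-- number of words of length `j` with the property `R` -/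
def cnt (o : ℕ → (ℕ → ℕ) → Prop) (ℒ : ℕ → Finset ℕ) (j : ℕ) (R : (ℕ → ℕ) → Prop) : ℚ :=
  ∑ v ∈ W o ℒ j, if R v then (1 : ℚ) else 0

/-- number of one letter extensions with the property `Q` -/
def ucnt (o : ℕ → (ℕ → ℕ) → Prop) (ℒ : ℕ → Finset ℕ) (m : ℕ) (Q : (ℕ → ℕ) → Prop) : ℚ :=
  ∑ c ∈ U o ℒ m, if Q c then (1 : ℚ) else 0

variable {o : ℕ → (ℕ → ℕ) → Prop} {ℒ : ℕ → Finset ℕ}

lemma cnt_nonneg (j : ℕ) (R : (ℕ → ℕ) → Prop) : 0 ≤ cnt o ℒ j R :=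
  sum_nonneg fun _ _ => by split_ifs <;> norm_num

lemma ucnt_nonneg (j : ℕ) (R : (ℕ → ℕ) → Prop) : 0 ≤ ucnt o ℒ j R :=
  sum_nonneg fun _ _ => by split_ifs <;> norm_num

lemma cnt_le (j : ℕ) (R : (ℕ → ℕ) → Prop) : cnt o ℒ j R ≤ N o ℒ j := by
  rw [N_eq]
  exact sum_le_sum fun _ _ => by split_ifs <;> norm_num

/-- the determination bound -/
lemma ubound (hloc : Local o) {m j : ℕ} (hj : j ≤ m) {Q R : (ℕ → ℕ) → Prop}
    (D : (ℕ → ℕ) → ℕ → ℕ)
    (hD : ∀ c ∈ U o ℒ m, Q c → ∀ k, j ≤ k → k ≤ m → c k = D (trunc j c) k)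
    (hR : ∀ c ∈ U o ℒ m, Q c → R (trunc j c)) : ucnt o ℒ m Q ≤ cnt o ℒ j R := by
  unfold ucnt cnt
  rw [← sum_filter]
  refine inj_bound (m := m + 1) (j := j) D ?_ ?_ ?_ _ _ ?_ ?_
  · intro c hc k hk
    rw [mem_filter, mem_U] at hc
    exact hc.1.1.2 k hk
  · intro c hc
    rw [mem_filter] at hc
    exact trunc_U hloc hc.1 hj
  · intro c hc k hk hk'
    rw [mem_filter] at hc
    exact hD c hc.1 hc.2 k hk (by omega)
  · intro c hc
    rw [mem_filter] at hc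
    rw [if_pos (hR c hc.1 hc.2)]
  · intro v _
    split_ifs <;> norm_num

lemma tr_eq {j k : ℕ} {c : ℕ → ℕ} (h : k < j) : trunc j c k = c k := by simp [trunc, h]

/-- squares of half-length `t` -/
lemma sq_le (hloc : Local o) {m t : ℕ} (ht : 1 ≤ t) (h2 : 2 * t ≤ m + 1) :
    ucnt o ℒ m (sqAt t m) ≤ N o ℒ (m + 1 - t) := by
  refine (ubound hloc (j := m + 1 - t) (R := fun _ => True) (by omega)
    (fun v k => v (k - t)) ?_ (fun _ _ _ => trivial)).trans (cnt_le _ _)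
  intro c _ hQ k hk hk'
  have := hQ.2.2 (k - (m + 1 - t)) (by omega)
  rw [show m + 1 - 2 * t + (k - (m + 1 - t)) = k - t by omega,
    show m + 1 - t + (k - (m + 1 - t)) = k by omega] at this
  show c k = trunc (m + 1 - t) c (k - t)
  rw [tr_eq (by omega), this]

lemma total (hloc : Local o) (m : ℕ) : ucnt o ℒ m (fun _ => True) = (ℒ m).card * N o ℒ m := by
  unfold ucnt
  simp only [if_true]
  rw [sum_U hloc, N_eq, mul_sum]
  refine sum_congr rfl fun w _ => ?_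
  simp

lemma N_succ (m : ℕ) : N o ℒ (m + 1) = ucnt o ℒ m (fun c => o m c) := by
  rw [N_eq, W_succ, sum_filter]
  rfl

lemma ucnt_split (m : ℕ) (Q : (ℕ → ℕ) → Prop) :
    ucnt o ℒ m (fun _ => True) = ucnt o ℒ m Q + ucnt o ℒ m (fun c => ¬ Q c) := by
  unfold ucnt
  rw [← sum_add_distrib]
  refine sum_congr rfl fun c _ => ?_
  by_cases h : Q c <;> simp [h]

lemma ucnt_or (m : ℕ) (Q R S : (ℕ → ℕ) → Prop) (h : ∀ c ∈ U o ℒ m, Q c → R c ∨ S c) :
    ucnt o ℒ m Q ≤ ucnt o ℒ m R + ucnt o ℒ m S := by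
  unfold ucnt
  rw [← sum_add_distrib]
  refine sum_le_sum fun c hc => ?_
  by_cases hQ : Q c
  · rcases h c hc hQ with h1 | h1
    · by_cases h2 : S c <;> simp [hQ, h1, h2]
    · by_cases h2 : R c <;> simp [hQ, h1, h2]
  · rw [if_neg hQ]
    by_cases h1 : R c <;> by_cases h2 : S c <;> simp [h1, h2]

lemma ucnt_mono (m : ℕ) (Q R : (ℕ → ℕ) → Prop) (h : ∀ c ∈ U o ℒ m, Q c → R c) :
    ucnt o ℒ m Q ≤ ucnt o ℒ m R := by
  unfold ucnt
  refine sum_le_sum fun c hc => ?_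
  by_cases hQ : Q c
  · rw [if_pos hQ, if_pos (h c hc hQ)]
  · rw [if_neg hQ]; split_ifs <;> norm_num

/-- squares of half-length `≥ t0` -/
def sqFrom (t0 m : ℕ) (c : ℕ → ℕ) : Prop := ∃ t, t0 ≤ t ∧ sqAt t m c

lemma sqFrom_succ (t0 m : ℕ) : ucnt o ℒ m (sqFrom t0 m) ≤
    ucnt o ℒ m (sqAt t0 m) + ucnt o ℒ m (sqFrom (t0 + 1) m) := by
  refine ucnt_or m _ _ _ ?_
  rintro c _ ⟨t, ht, hs⟩
  rcases Nat.lt_or_ge t0 t with h | h
  · exact Or.inr ⟨t, h, hs⟩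
  · obtain rfl : t = t0 := by omega
    exact Or.inl hs

lemma sqFrom_zero {t0 m : ℕ} (h : m + 1 < 2 * t0) : ucnt o ℒ m (sqFrom t0 m) = 0 := by
  unfold ucnt
  refine sum_eq_zero fun c _ => ?_
  rw [if_neg]
  rintro ⟨t, ht, hs⟩
  have := hs.2.1
  omega

lemma sqAt_zero {t m : ℕ} (h : m + 1 < 2 * t) : ucnt o ℒ m (sqAt t m) = 0 := by
  unfold ucnt
  refine sum_eq_zero fun c _ => ?_
  rw [if_neg]
  rintro hs
  have := hs.2.1
  omega

/-- the tail bound: if `b N i ≤ N (i+1)` for `6 ≤ i < m`, then the squares of half-length `≥ t0`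
cost at most `b/(b-1) N (m+1-t0)`, `b = 43/25`. -/
lemma tail (hloc : Local o) {m : ℕ} (hm : 10 ≤ m)
    (hr : ∀ i, 6 ≤ i → i < m → (43 / 25 : ℚ) * N o ℒ i ≤ N o ℒ (i + 1)) :
    ∀ (d t0 : ℕ), 1 ≤ t0 → m + 1 - 2 * t0 ≤ d → 6 ≤ m + 1 - t0 →
      ucnt o ℒ m (sqFrom t0 m) ≤ (43 / 18 : ℚ) * N o ℒ (m + 1 - t0) := by
  intro d
  induction d with
  | zero =>
    intro t0 ht hd h6
    rcases Nat.lt_or_ge (m + 1) (2 * t0) with h | h
    · rw [sqFrom_zero h]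
      have := N_nonneg (ok := o) (ℒ := ℒ) (m + 1 - t0)
      linarith
    · have h1 := sqFrom_succ (o := o) (ℒ := ℒ) t0 m
      have h2 := sq_le (o := o) (ℒ := ℒ) hloc ht h
      rw [sqFrom_zero (t0 := t0 + 1) (by omega)] at h1
      have := N_nonneg (ok := o) (ℒ := ℒ) (m + 1 - t0)
      linarith
  | succ d ih =>
    intro t0 ht hd h6
    rcases Nat.lt_or_ge (m + 1) (2 * t0) with h | h
    · rw [sqFrom_zero h]
      have := N_nonneg (ok := o) (ℒ := ℒ) (m + 1 - t0)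
      linarith
    · have h1 := sqFrom_succ (o := o) (ℒ := ℒ) t0 m
      have h2 := sq_le (o := o) (ℒ := ℒ) hloc ht h
      rcases Nat.lt_or_ge (m + 1) (2 * (t0 + 1)) with h' | h'
      · rw [sqFrom_zero h'] at h1
        have := N_nonneg (ok := o) (ℒ := ℒ) (m + 1 - t0)
        linarith
      · have h3 := ih (t0 + 1) (by omega) (by omega) (by omega)
        have h4 := hr (m + 1 - (t0 + 1)) (by omega) (by omega)
        rw [show m + 1 - (t0 + 1) + 1 = m + 1 - t0 by omega] at h4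
        linarith

end
end Pool.Agent.H409R3.Ph1
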