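import Pool.Agent.H409R3.Ph1.Comb

/-! Phase 1: the counting inequalities. -/

set_option autoImplicit false

namespace Pool.Agent.H409R3.Ph1
open Finset Pool.Agent.H378R3.ND
open scoped Classical

noncomputable section

variable {α : ℕ} {L : ℕ → Finset ℕ} {win : ℕ → (ℕ → ℕ) → Prop} {q : ℕ → ℕ}

theorem sqAt_congr {t m : ℕ} {c c' : ℕ → ℕ} (h : ∀ i ≤ m, c i = c' i) (hs : sqAt t m c) :
    sqAt t m c' := by
  obtain ⟨h1, h2, h3⟩ := hs
  refine ⟨h1, h2, fun i hi => ?_⟩
  rw [← h _ (by omega), ← h _ (by omega)]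
  exact h3 i hi

theorem local_ok (hw : Local win) : Local (ok α L win) := by
  intro p c c' h ⟨h1, h2, h3⟩
  refine ⟨fun t ht => h1 t (sqAt_congr (fun i hi => (h i hi).symm) ht), hw p c c' h h2, ?_⟩
  rintro ⟨x1, x2, x3, x4, x5, x6, x7⟩
  apply h3
  refine ⟨x1, x2, x3, ?_, ?_, ?_, ?_⟩
  · rw [h _ le_rfl, h _ (by omega)]; exact x4
  · rw [h _ (by omega), h _ (by omega)]; exact x5
  · rw [h _ (by omega), h _ (by omega)]; exact x6
  · rw [h _ (by omega), h _ (by omega)]; exact x7


theorem base (hw : Local win) (m : ℕ) :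
    (((ls α L q) m).card : ℚ) * N (ok α L win) (ls α L q) m ≤ N (ok α L win) (ls α L q) (m + 1) + ucnt (ok α L win) (ls α L q) m (sqFrom 1 m) +
      ucnt (ok α L win) (ls α L q) m (fun c => ¬ win m c) + ucnt (ok α L win) (ls α L q) m (Xbad α L m) := by
  rw [← total (local_ok hw) m, ucnt_split m (fun c => (ok α L win) m c), ← N_succ]
  have h1 := ucnt_or (o := (ok α L win)) (ℒ := (ls α L q)) m (fun c => ¬ (ok α L win) m c) (sqFrom 1 m)
    (fun c => ¬ win m c ∨ Xbad α L m c) (by
      intro c _ hc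
      by_cases hs : sqFrom 1 m c
      · exact Or.inl hs
      · right
        by_contra hcon
        push Not at hcon
        apply hc
        refine ⟨fun t ht => hs ⟨t, ht.1, ht⟩, hcon.1, hcon.2⟩)
  have h2 := ucnt_or (o := (ok α L win)) (ℒ := (ls α L q)) m (fun c => ¬ win m c ∨ Xbad α L m c)
    (fun c => ¬ win m c) (Xbad α L m) (fun c _ hc => hc)
  linarith

/-- words of length `m` with a determined end -/
theorem wbound (hw : Local win) {m j : ℕ} (hj : j ≤ m) {Q R : (ℕ → ℕ) → Prop}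
    (D : (ℕ → ℕ) → ℕ → ℕ)
    (hD : ∀ c ∈ W (ok α L win) (ls α L q) m, Q c → ∀ k, j ≤ k → k < m → c k = D (trunc j c) k)
    (hR : ∀ c ∈ W (ok α L win) (ls α L q) m, Q c → R (trunc j c)) : cnt (ok α L win) (ls α L q) m Q ≤ cnt (ok α L win) (ls α L q) j R := by
  unfold cnt
  rw [← sum_filter]
  refine inj_bound (m := m) (j := j) D ?_ ?_ ?_ _ _ ?_ ?_
  · intro c hc k hk
    rw [mem_filter, mem_W] at hc
    exact hc.1.1.2 k hk
  · intro c hc
    rw [mem_filter] at hc
    exact trunc_W (local_ok hw) hc.1 hj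
  · intro c hc k hk hk'
    rw [mem_filter] at hc
    exact hD c hc.1 hc.2 k hk hk'
  · intro c hc
    rw [mem_filter] at hc
    rw [if_pos (hR c hc.1 hc.2)]
  · intro v _
    split_ifs <;> norm_num

theorem rep_le (hw : Local win) {m : ℕ} (hm : 4 ≤ m) :
    cnt (ok α L win) (ls α L q) m (rep m) + cnt (ok α L win) (ls α L q) (m - 1) (rep (m - 1)) ≤ N (ok α L win) (ls α L q) (m - 1) := by
  have h1 : cnt (ok α L win) (ls α L q) m (rep m) ≤ cnt (ok α L win) (ls α L q) (m - 1) (fun c => ¬ rep (m - 1) c) := by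
    refine wbound hw (by omega) (fun v _ => v (m - 3)) ?_ ?_
    · intro c _ hQ k hk hk'
      obtain rfl : k = m - 1 := by omega
      rw [tr_eq (by omega)]
      exact hQ
    · intro c hc hQ hr
      unfold rep at hr hQ
      rw [tr_eq (by omega), tr_eq (by omega)] at hr
      have := (mem_W.1 hc).2 (m - 1) (by omega)
      refine this.1 2 ⟨by norm_num, by omega, ?_⟩
      intro i hi
      have hi' : i = 0 ∨ i = 1 := by omega
      rcases hi' with rfl | rfl
      · rw [show m - 1 + 1 - 2 * 2 + 0 = m - 1 - 3 by omega, show m - 1 + 1 - 2 + 0 = m - 1 - 1 by omega]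
        exact hr.symm
      · rw [show m - 1 + 1 - 2 * 2 + 1 = m - 3 by omega, show m - 1 + 1 - 2 + 1 = m - 1 by omega]
        exact hQ.symm
  have h2 : cnt (ok α L win) (ls α L q) (m - 1) (fun c => ¬ rep (m - 1) c) + cnt (ok α L win) (ls α L q) (m - 1) (rep (m - 1)) =
      N (ok α L win) (ls α L q) (m - 1) := by
    rw [N_eq]
    unfold cnt
    rw [← sum_add_distrib]
    refine sum_congr rfl fun c _ => ?_
    by_cases h : rep (m - 1) c <;> simp [h]
  linarith

theorem rep_pat (m : ℕ) : cnt (ok α L win) (ls α L q) m (rep m) ≤ cnt (ok α L win) (ls α L q) m (pat m) := by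
  unfold cnt
  refine sum_le_sum fun c _ => ?_
  by_cases h : rep m c
  · have hp : pat m c := Or.inl h
    rw [if_pos h, if_pos hp]
  · rw [if_neg h]; split_ifs <;> norm_num

theorem sq_two (hw : Local win) {m : ℕ} (hm : 3 ≤ m) :
    ucnt (ok α L win) (ls α L q) m (sqAt 2 m) ≤ cnt (ok α L win) (ls α L q) m (rep m) := by
  refine ubound (local_ok hw) le_rfl (fun v k => v (k - 2)) ?_ ?_
  · intro c _ hQ k hk hk'
    obtain rfl : k = m := by omega
    have := hQ.2.2 1 (by norm_num)
    rw [show k + 1 - 2 * 2 + 1 = k - 2 by omega, show k + 1 - 2 + 1 = k by omega] at this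
    show c k = trunc k c (k - 2)
    rw [tr_eq (by omega)]
    exact this.symm
  · intro c _ hQ
    have := hQ.2.2 0 (by norm_num)
    rw [show m + 1 - 2 * 2 + 0 = m - 3 by omega, show m + 1 - 2 + 0 = m - 1 by omega] at this
    unfold rep
    rw [tr_eq (by omega), tr_eq (by omega)]
    exact this.symm

theorem sq_three (hw : Local win) {m : ℕ} (hm : 5 ≤ m) :
    ucnt (ok α L win) (ls α L q) m (sqAt 3 m) ≤ cnt (ok α L win) (ls α L q) m (pat m) := by
  refine ubound (local_ok hw) le_rfl (fun v k => v (k - 3)) ?_ ?_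
  · intro c _ hQ k hk hk'
    obtain rfl : k = m := by omega
    have := hQ.2.2 2 (by norm_num)
    rw [show k + 1 - 2 * 3 + 2 = k - 3 by omega, show k + 1 - 3 + 2 = k by omega] at this
    show c k = trunc k c (k - 3)
    rw [tr_eq (by omega)]
    exact this.symm
  · intro c _ hQ
    have := hQ.2.2 1 (by norm_num)
    rw [show m + 1 - 2 * 3 + 1 = m - 4 by omega, show m + 1 - 3 + 1 = m - 1 by omega] at this
    right; left
    rw [tr_eq (by omega), tr_eq (by omega)]
    exact this.symm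

theorem sq_three' (hw : Local win) {m : ℕ} (hm : 5 ≤ m) :
    ucnt (ok α L win) (ls α L q) m (sqAt 3 m) ≤ cnt (ok α L win) (ls α L q) (m - 1) (pat (m - 1)) := by
  refine ubound (local_ok hw) (by omega) (fun v k => v (k - 3)) ?_ ?_
  · intro c _ hQ k hk hk'
    have := hQ.2.2 (k - (m - 2)) (by omega)
    rw [show m + 1 - 2 * 3 + (k - (m - 2)) = k - 3 by omega,
      show m + 1 - 3 + (k - (m - 2)) = k by omega] at this
    show c k = trunc (m - 1) c (k - 3)
    rw [tr_eq (by omega)]
    exact this.symm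
  · intro c _ hQ
    have := hQ.2.2 0 (by norm_num)
    rw [show m + 1 - 2 * 3 + 0 = m - 5 by omega, show m + 1 - 3 + 0 = m - 2 by omega] at this
    right; left
    rw [tr_eq (by omega), tr_eq (by omega), show m - 1 - 1 = m - 2 by omega, show m - 1 - 4 = m - 5 by omega]
    exact this.symm

/-- squares of half-length four before a type-3 place -/
theorem sq_four (hw : Local win) {m : ℕ} (hm : 7 ≤ m) (h3 : α ∈ L m) (e P : ℚ) (hP : 0 ≤ P)
    (h1 : cnt (ok α L win) (ls α L q) m (pat m) ≤ e) (h2 : α ∈ L (m - 1) → cnt (ok α L win) (ls α L q) (m - 1) (pat (m - 1)) ≤ P) :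
    ucnt (ok α L win) (ls α L q) m (sqAt 4 m) ≤ e + P := by
  have hdec : ∀ c : ℕ → ℕ, sqAt 4 m c → c m = c (m - 4) ∧ c (m - 1) = c (m - 5) ∧
      c (m - 2) = c (m - 6) ∧ c (m - 3) = c (m - 7) := by
    intro c hQ
    have a0 := hQ.2.2 0 (by norm_num)
    have a1 := hQ.2.2 1 (by norm_num)
    have a2 := hQ.2.2 2 (by norm_num)
    have a3 := hQ.2.2 3 (by norm_num)
    rw [show m + 1 - 2 * 4 + 0 = m - 7 by omega, show m + 1 - 4 + 0 = m - 3 by omega] at a0
    rw [show m + 1 - 2 * 4 + 1 = m - 6 by omega, show m + 1 - 4 + 1 = m - 2 by omega] at a1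
    rw [show m + 1 - 2 * 4 + 2 = m - 5 by omega, show m + 1 - 4 + 2 = m - 1 by omega] at a2
    rw [show m + 1 - 2 * 4 + 3 = m - 4 by omega, show m + 1 - 4 + 3 = m by omega] at a3
    exact ⟨a3.symm, a2.symm, a1.symm, a0.symm⟩
  have hA := ucnt_or (o := (ok α L win)) (ℒ := (ls α L q)) m (sqAt 4 m) (fun c => sqAt 4 m c ∧ c (m - 2) ≠ c (m - 4))
    (fun c => sqAt 4 m c ∧ c (m - 2) = c (m - 4)) (by
      intro c _ hc
      by_cases h : c (m - 2) = c (m - 4)
      · exact Or.inr ⟨hc, h⟩
      · exact Or.inl ⟨hc, h⟩)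
  have hB : ucnt (ok α L win) (ls α L q) m (fun c => sqAt 4 m c ∧ c (m - 2) ≠ c (m - 4)) ≤ cnt (ok α L win) (ls α L q) m (pat m) := by
    refine ubound (local_ok hw) le_rfl (fun v k => v (k - 4)) ?_ ?_
    · intro c _ hQ k hk hk'
      obtain rfl : k = m := by omega
      show c k = trunc k c (k - 4)
      rw [tr_eq (by omega)]
      exact (hdec c hQ.1).1
    · intro c _ hQ
      right; right
      rw [tr_eq (by omega), tr_eq (by omega), tr_eq (by omega), tr_eq (by omega)]
      exact ⟨(hdec c hQ.1).2.1, hQ.2⟩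
  have hC : ucnt (ok α L win) (ls α L q) m (fun c => sqAt 4 m c ∧ c (m - 2) = c (m - 4)) ≤ P := by
    by_cases ht : α ∈ L (m - 1)
    · refine le_trans ?_ (h2 ht)
      refine ubound (local_ok hw) (by omega) (fun v k => v (k - 4)) ?_ ?_
      · intro c _ hQ k hk hk'
        have := hQ.1.2.2 (k - (m - 3)) (by omega)
        rw [show m + 1 - 2 * 4 + (k - (m - 3)) = k - 4 by omega,
          show m + 1 - 4 + (k - (m - 3)) = k by omega] at this
        show c k = trunc (m - 1) c (k - 4)
        rw [tr_eq (by omega)]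
        exact this.symm
      · intro c _ hQ
        left
        rw [tr_eq (by omega), tr_eq (by omega), show m - 1 - 1 = m - 2 by omega,
          show m - 1 - 3 = m - 4 by omega]
        exact hQ.2
    · refine le_trans (le_of_eq ?_) hP
      unfold ucnt
      refine sum_eq_zero fun c hc => ?_
      rw [if_neg]
      rintro ⟨hs, heq⟩
      obtain ⟨d1, d2, d3, d4⟩ := hdec c hs
      have hok := (mem_U.1 hc).2 (m - 1) (by omega)
      apply hok.2.2
      refine ⟨by omega, ht, ?_, ?_, ?_, ?_, ?_⟩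
      · rw [show m - 1 + 1 = m by omega]; exact h3
      · rw [show m - 1 - 4 = m - 5 by omega]; exact d2
      · rw [show m - 1 - 1 = m - 2 by omega, show m - 1 - 3 = m - 4 by omega]; exact heq
      · rw [show m - 1 - 1 = m - 2 by omega, show m - 1 - 5 = m - 6 by omega]; exact d3
      · rw [show m - 1 - 2 = m - 3 by omega, show m - 1 - 6 = m - 7 by omega]; exact d4
  linarith

theorem X_le (hw : Local win) {m : ℕ} (hm : 6 ≤ m) :
    ucnt (ok α L win) (ls α L q) m (Xbad α L m) ≤ cnt (ok α L win) (ls α L q) (m - 2) (rep (m - 2)) := by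
  refine ubound (local_ok hw) (by omega) (fun v k => v (k - 4)) ?_ ?_
  · intro c _ hQ k hk hk'
    obtain ⟨_, _, _, x4, x5, x6, x7⟩ := hQ
    show c k = trunc (m - 2) c (k - 4)
    rw [tr_eq (by omega)]
    have hk3 : k = m - 2 ∨ k = m - 1 ∨ k = m := by omega
    rcases hk3 with rfl | rfl | rfl
    · rw [show m - 2 - 4 = m - 6 by omega]; exact x7
    · rw [show m - 1 - 4 = m - 5 by omega]; exact x6
    · exact x4
  · intro c _ hQ
    obtain ⟨_, _, _, x4, x5, x6, x7⟩ := hQ
    unfold rep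
    rw [tr_eq (by omega), tr_eq (by omega), show m - 2 - 1 = m - 3 by omega,
      show m - 2 - 3 = m - 5 by omega, ← x5, x6]

theorem X_zero {m : ℕ} (h : α ∈ L m ∨ α ∉ L (m + 1)) : ucnt (ok α L win) (ls α L q) m (Xbad α L m) = 0 := by
  unfold ucnt
  refine sum_eq_zero fun c _ => ?_
  rw [if_neg]
  rintro ⟨_, x2, x3, _⟩
  rcases h with h | h
  · exact x2 h
  · exact h x3

theorem N_le_one {j : ℕ} (hj : j ≤ 6) : N (ok α L win) (ls α L q) j ≤ 1 := by
  have : (W (ok α L win) (ls α L q) j).card ≤ 1 := by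
    rw [card_le_one]
    intro a ha b hb
    rw [mem_W] at ha hb
    funext k
    by_cases hk : k < j
    · have h1 := ha.1.1 k hk
      have h2 := hb.1.1 k hk
      unfold ls at h1 h2
      rw [if_pos (by omega), mem_singleton] at h1 h2
      rw [h1, h2]
    · rw [ha.1.2 k (by omega), hb.1.2 k (by omega)]
  unfold N
  exact_mod_cast this

end
end Pool.Agent.H409R3.Ph1
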