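import Pool.Agent.H409R3.Ph1.Ineq

/-! Phase 1: the growth rate `43/25`. -/

set_option autoImplicit false

namespace Pool.Agent.H409R3.Ph1
open Finset Pool.Agent.H378R3.ND
open scoped Classical

noncomputable section

variable {α : ℕ} {L : ℕ → Finset ℕ} {win : ℕ → (ℕ → ℕ) → Prop} {q : ℕ → ℕ}


theorem card3 (hL : ∀ k, (L k).card = 4) {m : ℕ} (hm : 6 ≤ m) (h : α ∈ L m) :
    (((ls α L q) m).card : ℚ) = 3 := by
  unfold ls
  rw [if_neg (by omega), card_erase_of_mem h, hL]
  norm_num

theorem card4 (hL : ∀ k, (L k).card = 4) {m : ℕ} (hm : 6 ≤ m) (h : α ∉ L m) :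
    (((ls α L q) m).card : ℚ) = 4 := by
  unfold ls
  rw [if_neg (by omega), erase_eq_of_notMem h, hL]
  norm_num

theorem val_q {j k : ℕ} {c : ℕ → ℕ} (hc : c ∈ U (ok α L win) (ls α L q) j) (hk : k ≤ j) (hk6 : k < 6) : c k = q k := by
  have := (mem_U.1 hc).1.1 k (by omega)
  unfold ls at this
  rw [if_pos hk6, mem_singleton] at this
  exact this

theorem val_qW {j k : ℕ} {c : ℕ → ℕ} (hc : c ∈ W (ok α L win) (ls α L q) j) (hk : k < j) (hk6 : k < 6) : c k = q k := by
  have := (mem_W.1 hc).1.1 k (by omega)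
  unfold ls at this
  rw [if_pos hk6, mem_singleton] at this
  exact this

theorem rep6 (h53 : q 5 ≠ q 3) : cnt (ok α L win) (ls α L q) 6 (rep 6) = 0 := by
  unfold cnt
  refine sum_eq_zero fun c hc => ?_
  rw [if_neg]
  intro h
  unfold rep at h
  norm_num at h
  rw [val_qW hc (by norm_num) (by norm_num), val_qW hc (by norm_num) (by norm_num)] at h
  exact h53 h

/-- the hypotheses of phase 1 -/
structure Hyp (α : ℕ) (L : ℕ → Finset ℕ) (win : ℕ → (ℕ → ℕ) → Prop) (q : ℕ → ℕ) (M : ℕ) : Prop where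
  hL : ∀ k, (L k).card = 4
  hw : Local win
  hwin : ∀ m, 6 ≤ m → m ≤ M →
    (∀ j, 6 ≤ j → j < m →
      (43 / 25 : ℚ) * N (ok α L win) (ls α L q) j ≤ N (ok α L win) (ls α L q) (j + 1)) →
    ucnt (ok α L win) (ls α L q) m (fun c => ¬ win m c) ≤ (1 / 1000 : ℚ) * N (ok α L win) (ls α L q) m
  hq : trunc 6 q ∈ W (ok α L win) (ls α L q) 6
  q53 : q 5 ≠ q 3
  q02 : q 0 ≠ q 2
  q12 : q 1 ≠ q 2
  hpat : ∀ k, 6 ≤ k → k ≤ M → α ∈ L k →
    cnt (ok α L win) (ls α L q) k (pat k) ≤ (1 / 1000 : ℚ) * N (ok α L win) (ls α L q) k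

variable {M : ℕ}

theorem Hyp.N6 (H : Hyp α L win q M) : N (ok α L win) (ls α L q) 6 = 1 := by
  have h1 := N_le_one (α := α) (L := L) (win := win) (q := q) (j := 6) le_rfl
  have h2 : 1 ≤ (W (ok α L win) (ls α L q) 6).card := card_pos.2 ⟨_, H.hq⟩
  have h3 : (1 : ℚ) ≤ N (ok α L win) (ls α L q) 6 := by
    unfold N; exact_mod_cast h2
  linarith

/-- decomposition of the squares -/
theorem sq5 (m : ℕ) : ucnt (ok α L win) (ls α L q) m (sqFrom 1 m) ≤ ucnt (ok α L win) (ls α L q) m (sqAt 1 m) + ucnt (ok α L win) (ls α L q) m (sqAt 2 m) +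
    ucnt (ok α L win) (ls α L q) m (sqAt 3 m) + ucnt (ok α L win) (ls α L q) m (sqAt 4 m) + ucnt (ok α L win) (ls α L q) m (sqFrom 5 m) := by
  have h1 := sqFrom_succ (o := (ok α L win)) (ℒ := (ls α L q)) 1 m
  have h2 := sqFrom_succ (o := (ok α L win)) (ℒ := (ls α L q)) 2 m
  have h3 := sqFrom_succ (o := (ok α L win)) (ℒ := (ls α L q)) 3 m
  have h4 := sqFrom_succ (o := (ok α L win)) (ℒ := (ls α L q)) 4 m
  norm_num at h1 h2 h3 h4
  linarith

theorem sq3 (m : ℕ) : ucnt (ok α L win) (ls α L q) m (sqFrom 1 m) ≤ ucnt (ok α L win) (ls α L q) m (sqAt 1 m) + ucnt (ok α L win) (ls α L q) m (sqAt 2 m) +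
    ucnt (ok α L win) (ls α L q) m (sqFrom 3 m) := by
  have h1 := sqFrom_succ (o := (ok α L win)) (ℒ := (ls α L q)) 1 m
  have h2 := sqFrom_succ (o := (ok α L win)) (ℒ := (ls α L q)) 2 m
  norm_num at h1 h2
  linarith

/-- type 3 places -/
theorem Hyp.type3 (H : Hyp α L win q M) {m : ℕ} (hm : 6 ≤ m) (hmM : m ≤ M) (h3 : α ∈ L m)
    (hrr : ∀ j, 6 ≤ j → j < m → (43 / 25 : ℚ) * N (ok α L win) (ls α L q) j ≤ N (ok α L win) (ls α L q) (j + 1))
    (hmono : 7 ≤ m → N (ok α L win) (ls α L q) (m - 1) ≤ N (ok α L win) (ls α L q) m) :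
    (1994 / 1000 : ℚ) * N (ok α L win) (ls α L q) m ≤ N (ok α L win) (ls α L q) (m + 1) + ucnt (ok α L win) (ls α L q) m (sqFrom 5 m) := by
  have hb := base (α := α) (L := L) (q := q) H.hw m
  rw [card3 H.hL hm h3, X_zero (Or.inl h3)] at hb
  have h1 := sq5 (α := α) (L := L) (win := win) (q := q) m
  have s1 := sq_le (o := (ok α L win)) (ℒ := (ls α L q)) (local_ok H.hw) (m := m) (t := 1) le_rfl (by omega)
  rw [show m + 1 - 1 = m by omega] at s1
  have s2 := (sq_two (α := α) (L := L) (q := q) H.hw (m := m) (by omega)).trans (rep_pat m)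
  have s3 := sq_three (α := α) (L := L) (q := q) H.hw (m := m) (by omega)
  have hp := H.hpat m hm hmM h3
  have hwn := H.hwin m hm hmM hrr
  have hN := N_nonneg (ok := (ok α L win)) (ℒ := (ls α L q)) m
  have s4 : ucnt (ok α L win) (ls α L q) m (sqAt 4 m) ≤ (2 / 1000 : ℚ) * N (ok α L win) (ls α L q) m := by
    rcases Nat.lt_or_ge m 7 with h | h
    · rw [sqAt_zero (by omega)]
      linarith
    · have hmo := hmono h
      have := sq_four (α := α) (L := L) (q := q) H.hw h h3 ((1 / 1000 : ℚ) * N (ok α L win) (ls α L q) m)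
        ((1 / 1000 : ℚ) * N (ok α L win) (ls α L q) m) (by linarith) hp (fun ht => by
          have := H.hpat (m - 1) (by omega) (by omega) ht
          linarith)
      linarith
  linarith

theorem rep_le' (H : Hyp α L win q M) {m : ℕ} (hm : 4 ≤ m) :
    cnt (ok α L win) (ls α L q) m (rep m) ≤ N (ok α L win) (ls α L q) (m - 1) := by
  have := rep_le (α := α) (L := L) (q := q) H.hw hm
  have h := cnt_nonneg (o := (ok α L win)) (ℒ := (ls α L q)) (m - 1) (rep (m - 1))
  linarith

theorem Hyp.m6 (H : Hyp α L win q M) (hM : 6 ≤ M) : (199 / 100 : ℚ) * N (ok α L win) (ls α L q) 6 ≤ N (ok α L win) (ls α L q) 7 := by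
  by_cases h3 : α ∈ L 6
  · have := H.type3 le_rfl hM h3 (fun j h1 h2 => by omega) (by intro h; omega)
    rw [sqFrom_zero (by norm_num)] at this
    norm_num at this
    have hN := N_nonneg (ok := (ok α L win)) (ℒ := (ls α L q)) 6
    linarith
  · have hb := base (α := α) (L := L) (q := q) H.hw 6
    rw [card4 H.hL le_rfl h3] at hb
    norm_num at hb
    have h1 := sq5 (α := α) (L := L) (win := win) (q := q) 6
    rw [sqFrom_zero (t0 := 5) (by norm_num), sqAt_zero (t := 4) (by norm_num)] at h1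
    have s1 := sq_le (o := (ok α L win)) (ℒ := (ls α L q)) (local_ok H.hw) (m := 6) (t := 1) le_rfl (by omega)
    have s2 := sq_two (α := α) (L := L) (q := q) H.hw (m := 6) (by omega)
    rw [rep6 H.q53] at s2
    have s3 := sq_le (o := (ok α L win)) (ℒ := (ls α L q)) (local_ok H.hw) (m := 6) (t := 3) (by omega) (by omega)
    norm_num at s1 s3
    have n4 := N_le_one (α := α) (L := L) (win := win) (q := q) (j := 4) (by omega)
    have hX : ucnt (ok α L win) (ls α L q) 6 (Xbad α L 6) = 0 := by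
      unfold ucnt
      refine sum_eq_zero fun c hc => ?_
      rw [if_neg]
      rintro ⟨_, _, _, _, x5, _⟩
      norm_num at x5
      rw [val_q hc (by norm_num) (by norm_num), val_q hc (by norm_num) (by norm_num)] at x5
      exact H.q53 x5
    have hwn := H.hwin 6 le_rfl hM (fun j h1 h2 => by omega)
    have h6 := H.N6
    rw [hX] at hb
    linarith

theorem Hyp.m7 (H : Hyp α L win q M) (hM : 7 ≤ M) : (199 / 100 : ℚ) * N (ok α L win) (ls α L q) 7 ≤ N (ok α L win) (ls α L q) 8 := by
  have r6 := H.m6 (by omega)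
  have h6 := H.N6
  have hrr : ∀ j, 6 ≤ j → j < 7 → (43 / 25 : ℚ) * N (ok α L win) (ls α L q) j ≤ N (ok α L win) (ls α L q) (j + 1) := by
    intro j h1 h2
    obtain rfl : j = 6 := by omega
    norm_num
    linarith
  by_cases h3 : α ∈ L 7
  · have := H.type3 (m := 7) (by omega) hM h3 hrr (by intro _; norm_num; linarith)
    rw [sqFrom_zero (by norm_num)] at this
    norm_num at this
    have hN := N_nonneg (ok := (ok α L win)) (ℒ := (ls α L q)) 7
    linarith
  · have hb := base (α := α) (L := L) (q := q) H.hw 7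
    rw [card4 H.hL (by omega) h3] at hb
    norm_num at hb
    have h1 := sq5 (α := α) (L := L) (win := win) (q := q) 7
    rw [sqFrom_zero (t0 := 5) (by norm_num)] at h1
    have s1 := sq_le (o := (ok α L win)) (ℒ := (ls α L q)) (local_ok H.hw) (m := 7) (t := 1) le_rfl (by omega)
    have s2 := sq_le (o := (ok α L win)) (ℒ := (ls α L q)) (local_ok H.hw) (m := 7) (t := 2) (by omega) (by omega)
    have s3 := sq_le (o := (ok α L win)) (ℒ := (ls α L q)) (local_ok H.hw) (m := 7) (t := 3) (by omega) (by omega)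
    have s4 := sq_le (o := (ok α L win)) (ℒ := (ls α L q)) (local_ok H.hw) (m := 7) (t := 4) (by omega) (by omega)
    have sX := (X_le (α := α) (L := L) (q := q) H.hw (m := 7) (by omega)).trans (cnt_le _ _)
    norm_num at s1 s2 s3 s4 sX
    have n4 := N_le_one (α := α) (L := L) (win := win) (q := q) (j := 4) (by omega)
    have n5 := N_le_one (α := α) (L := L) (win := win) (q := q) (j := 5) (by omega)
    have hwn := H.hwin 7 (by omega) hM hrr
    have hdec4 : ∀ c ∈ U (ok α L win) (ls α L q) 7, sqAt 4 7 c → q 4 = q 0 ∧ q 5 = q 1 := by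
      intro c hc hs
      have a0 := hs.2.2 0 (by norm_num)
      have a1 := hs.2.2 1 (by norm_num)
      norm_num at a0 a1
      rw [val_q hc (by norm_num) (by norm_num), val_q hc (by norm_num) (by norm_num)] at a0 a1
      exact ⟨a0.symm, a1.symm⟩
    have hdec3 : ∀ c ∈ U (ok α L win) (ls α L q) 7, sqAt 3 7 c → q 5 = q 2 := by
      intro c hc hs
      have a0 := hs.2.2 0 (by norm_num)
      norm_num at a0
      rw [val_q hc (by norm_num) (by norm_num), val_q hc (by norm_num) (by norm_num)] at a0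
      exact a0.symm
    have hdecX : ∀ c ∈ U (ok α L win) (ls α L q) 7, Xbad α L 7 c → q 5 = q 1 ∧ q 4 = q 2 := by
      rintro c hc ⟨_, _, _, _, x5, x6, x7⟩
      norm_num at x5 x6 x7
      have e1 := x5.symm.trans x6
      rw [val_q hc (by norm_num) (by norm_num), val_q hc (by norm_num) (by norm_num)] at x7 e1
      exact ⟨x7, e1⟩
    have hz : ∀ Q : (ℕ → ℕ) → Prop, (∀ c ∈ U (ok α L win) (ls α L q) 7, ¬ Q c) → ucnt (ok α L win) (ls α L q) 7 Q = 0 := by
      intro Q h
      unfold ucnt
      exact sum_eq_zero fun c hc => if_neg (h c hc)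
    have hrest : ucnt (ok α L win) (ls α L q) 7 (sqAt 3 7) + ucnt (ok α L win) (ls α L q) 7 (sqAt 4 7) + ucnt (ok α L win) (ls α L q) 7 (Xbad α L 7) ≤ 1 := by
      by_cases c52 : q 5 = q 2
      · have e1 : q 5 ≠ q 1 := by rw [c52]; exact H.q12.symm
        rw [hz _ (fun c hc h => e1 (hdec4 c hc h).2), hz _ (fun c hc h => e1 (hdecX c hc h).1)]
        linarith
      · rw [hz _ (fun c hc h => c52 (hdec3 c hc h))]
        by_cases c40 : q 4 = q 0
        · have e1 : q 4 ≠ q 2 := by rw [c40]; exact H.q02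
          rw [hz _ (fun c hc h => e1 (hdecX c hc h).2)]
          linarith
        · rw [hz _ (fun c hc h => c40 (hdec4 c hc h).1)]
          linarith
    linarith

theorem Hyp.m8 (H : Hyp α L win q M) (hM : 8 ≤ M) : (199 / 100 : ℚ) * N (ok α L win) (ls α L q) 8 ≤ N (ok α L win) (ls α L q) 9 := by
  have r6 := H.m6 (by omega)
  have r7 := H.m7 (by omega)
  have h6 := H.N6
  have hrr : ∀ j, 6 ≤ j → j < 8 → (43 / 25 : ℚ) * N (ok α L win) (ls α L q) j ≤ N (ok α L win) (ls α L q) (j + 1) := by
    intro j h1 h2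
    have hj : j = 6 ∨ j = 7 := by omega
    rcases hj with rfl | rfl <;> norm_num <;> linarith
  by_cases h3 : α ∈ L 8
  · have := H.type3 (m := 8) (by omega) hM h3 hrr (by intro _; norm_num; linarith)
    rw [sqFrom_zero (by norm_num)] at this
    norm_num at this
    have hN := N_nonneg (ok := (ok α L win)) (ℒ := (ls α L q)) 8
    linarith
  · have hb := base (α := α) (L := L) (q := q) H.hw 8
    rw [card4 H.hL (by omega) h3] at hb
    norm_num at hb
    have h1 := sq5 (α := α) (L := L) (win := win) (q := q) 8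
    rw [sqFrom_zero (t0 := 5) (by norm_num)] at h1
    have s1 := sq_le (o := (ok α L win)) (ℒ := (ls α L q)) (local_ok H.hw) (m := 8) (t := 1) le_rfl (by omega)
    have s2 := sq_le (o := (ok α L win)) (ℒ := (ls α L q)) (local_ok H.hw) (m := 8) (t := 2) (by omega) (by omega)
    have s3 := sq_le (o := (ok α L win)) (ℒ := (ls α L q)) (local_ok H.hw) (m := 8) (t := 3) (by omega) (by omega)
    have s4 := sq_le (o := (ok α L win)) (ℒ := (ls α L q)) (local_ok H.hw) (m := 8) (t := 4) (by omega) (by omega)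
    have sX := X_le (α := α) (L := L) (q := q) H.hw (m := 8) (by omega)
    norm_num at s1 s2 s3 s4 sX
    rw [rep6 H.q53] at sX
    have n5 := N_le_one (α := α) (L := L) (win := win) (q := q) (j := 5) (by omega)
    have hwn := H.hwin 8 (by omega) hM hrr
    linarith

theorem Hyp.m9a (H : Hyp α L win q M) (hM : 9 ≤ M) : ucnt (ok α L win) (ls α L q) 9 (sqFrom 3 9) ≤
    (43 / 18 : ℚ) * N (ok α L win) (ls α L q) 7 := by
  have r6 := H.m6 (by omega)
  have h6 := H.N6
  have h3 := sqFrom_succ (o := (ok α L win)) (ℒ := (ls α L q)) 3 9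
  have h4 := sqFrom_succ (o := (ok α L win)) (ℒ := (ls α L q)) 4 9
  have h5 := sqFrom_succ (o := (ok α L win)) (ℒ := (ls α L q)) 5 9
  norm_num at h3 h4 h5
  rw [sqFrom_zero (t0 := 6) (by norm_num)] at h5
  have s3 := sq_le (o := (ok α L win)) (ℒ := (ls α L q)) (local_ok H.hw) (m := 9) (t := 3) (by omega) (by omega)
  have s4 := sq_le (o := (ok α L win)) (ℒ := (ls α L q)) (local_ok H.hw) (m := 9) (t := 4) (by omega) (by omega)
  have s5 := sq_le (o := (ok α L win)) (ℒ := (ls α L q)) (local_ok H.hw) (m := 9) (t := 5) (by omega) (by omega)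
  norm_num at s3 s4 s5
  have n5 := N_le_one (α := α) (L := L) (win := win) (q := q) (j := 5) (by omega)
  linarith

theorem Hyp.m9 (H : Hyp α L win q M) (hM : 9 ≤ M) : (43 / 25 : ℚ) * N (ok α L win) (ls α L q) 9 ≤ N (ok α L win) (ls α L q) 10 ∧
    (α ∉ L 9 → α ∉ L 10 → (187 / 100 : ℚ) * N (ok α L win) (ls α L q) 9 ≤ N (ok α L win) (ls α L q) 10) := by
  have r6 := H.m6 (by omega)
  have r7 := H.m7 (by omega)
  have r8 := H.m8 (by omega)
  have h6 := H.N6
  have hrr : ∀ j, 6 ≤ j → j < 9 → (43 / 25 : ℚ) * N (ok α L win) (ls α L q) j ≤ N (ok α L win) (ls α L q) (j + 1) := by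
    intro j h1 h2
    have hj : j = 6 ∨ j = 7 ∨ j = 8 := by omega
    rcases hj with rfl | rfl | rfl <;> norm_num <;> linarith
  by_cases h3 : α ∈ L 9
  · refine ⟨?_, fun h => absurd h3 h⟩
    have := H.type3 (m := 9) (by omega) hM h3 hrr (by intro _; norm_num; linarith)
    have h5 := sqFrom_succ (o := (ok α L win)) (ℒ := (ls α L q)) 5 9
    norm_num at h5
    rw [sqFrom_zero (t0 := 6) (by norm_num)] at h5
    have s5 := sq_le (o := (ok α L win)) (ℒ := (ls α L q)) (local_ok H.hw) (m := 9) (t := 5) (by omega) (by omega)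
    norm_num at s5 this
    have n5 := N_le_one (α := α) (L := L) (win := win) (q := q) (j := 5) (by omega)
    linarith
  · have hb := base (α := α) (L := L) (q := q) H.hw 9
    rw [card4 H.hL (by omega) h3] at hb
    norm_num at hb
    have h1 := sq3 (α := α) (L := L) (win := win) (q := q) 9
    have s1 := sq_le (o := (ok α L win)) (ℒ := (ls α L q)) (local_ok H.hw) (m := 9) (t := 1) le_rfl (by omega)
    have s2 := sq_le (o := (ok α L win)) (ℒ := (ls α L q)) (local_ok H.hw) (m := 9) (t := 2) (by omega) (by omega)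
    norm_num at s1 s2
    have h5 := sqFrom_succ (o := (ok α L win)) (ℒ := (ls α L q)) 3 9
    have h5' := sqFrom_succ (o := (ok α L win)) (ℒ := (ls α L q)) 4 9
    have h5'' := sqFrom_succ (o := (ok α L win)) (ℒ := (ls α L q)) 5 9
    norm_num at h5 h5' h5''
    rw [sqFrom_zero (t0 := 6) (by norm_num)] at h5''
    have s3 := sq_le (o := (ok α L win)) (ℒ := (ls α L q)) (local_ok H.hw) (m := 9) (t := 3) (by omega) (by omega)
    have s4 := sq_le (o := (ok α L win)) (ℒ := (ls α L q)) (local_ok H.hw) (m := 9) (t := 4) (by omega) (by omega)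
    have s5 := sq_le (o := (ok α L win)) (ℒ := (ls α L q)) (local_ok H.hw) (m := 9) (t := 5) (by omega) (by omega)
    norm_num at s3 s4 s5
    have n5 := N_le_one (α := α) (L := L) (win := win) (q := q) (j := 5) (by omega)
    have sX := X_le (α := α) (L := L) (q := q) H.hw (m := 9) (by omega)
    have sX' := rep_le' H (m := 7) (by omega)
    norm_num at sX sX'
    have hwn := H.hwin 9 (by omega) hM hrr
    constructor
    · have h6' := h6
      linarith
    · intro _ h10
      have hX0 := X_zero (α := α) (L := L) (win := win) (q := q) (m := 9) (Or.inr h10)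
      rw [hX0] at hb
      linarith

/-- the claim of phase 1 at `m` -/
def Claim (α : ℕ) (L : ℕ → Finset ℕ) (win : ℕ → (ℕ → ℕ) → Prop) (q : ℕ → ℕ) (m : ℕ) : Prop :=
  (43 / 25 : ℚ) * N (ok α L win) (ls α L q) m ≤ N (ok α L win) (ls α L q) (m + 1) ∧
    (α ∉ L m → α ∉ L (m + 1) →
      (187 / 100 : ℚ) * N (ok α L win) (ls α L q) m ≤ N (ok α L win) (ls α L q) (m + 1))

theorem Hyp.step (H : Hyp α L win q M) {m : ℕ} (hm : 10 ≤ m) (hmM : m ≤ M)
    (ih : ∀ i, 6 ≤ i → i < m → Claim α L win q i) : Claim α L win q m := by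
  have hr : ∀ i, 6 ≤ i → i < m → (43 / 25 : ℚ) * N (ok α L win) (ls α L q) i ≤ N (ok α L win) (ls α L q) (i + 1) :=
    fun i h1 h2 => (ih i h1 h2).1
  obtain ⟨k, rfl⟩ : ∃ k, m = k + 4 := ⟨m - 4, by omega⟩
  have r0 := hr k (by omega) (by omega)
  have r1 := hr (k + 1) (by omega) (by omega)
  have r2 := hr (k + 2) (by omega) (by omega)
  have r3 := hr (k + 3) (by omega) (by omega)
  have n0 := N_nonneg (ok := (ok α L win)) (ℒ := (ls α L q)) k
  have n1 := N_nonneg (ok := (ok α L win)) (ℒ := (ls α L q)) (k + 1)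
  have n2 := N_nonneg (ok := (ok α L win)) (ℒ := (ls α L q)) (k + 2)
  have n3 := N_nonneg (ok := (ok α L win)) (ℒ := (ls α L q)) (k + 3)
  have n4 := N_nonneg (ok := (ok α L win)) (ℒ := (ls α L q)) (k + 4)
  have hwn := H.hwin (k + 4) (by omega) hmM hr
  unfold Claim
  by_cases h3 : α ∈ L (k + 4)
  · refine ⟨?_, fun h => absurd h3 h⟩
    have h := H.type3 (m := k + 4) (by omega) hmM h3 hr (by
      intro _; rw [show k + 4 - 1 = k + 3 by omega]; linarith)
    have ht := tail (o := (ok α L win)) (ℒ := (ls α L q)) (local_ok H.hw) hm hr (k + 4) 5 (by norm_num) (by omega) (by omega)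
    rw [show k + 4 + 1 - 5 = k by omega] at ht
    linarith
  · have hb := base (α := α) (L := L) (q := q) H.hw (k + 4)
    rw [card4 H.hL (by omega) h3] at hb
    have s1 := sq_le (o := (ok α L win)) (ℒ := (ls α L q)) (local_ok H.hw) (m := k + 4) (t := 1) le_rfl (by omega)
    rw [show k + 4 + 1 - 1 = k + 4 by omega] at s1
    have s2 := sq_two (α := α) (L := L) (q := q) H.hw (m := k + 4) (by omega)
    have hrep := rep_le (α := α) (L := L) (q := q) H.hw (m := k + 4) (by omega)
    rw [show k + 4 - 1 = k + 3 by omega] at hrep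
    have hrep3 := rep_le (α := α) (L := L) (q := q) H.hw (m := k + 3) (by omega)
    rw [show k + 3 - 1 = k + 2 by omega] at hrep3
    have u3 := cnt_nonneg (o := (ok α L win)) (ℒ := (ls α L q)) (k + 3) (rep (k + 3))
    have u2 := cnt_nonneg (o := (ok α L win)) (ℒ := (ls α L q)) (k + 2) (rep (k + 2))
    have sX := X_le (α := α) (L := L) (q := q) H.hw (m := k + 4) (by omega)
    rw [show k + 4 - 2 = k + 2 by omega] at sX
    have hrep2 := rep_le' H (m := k + 2) (by omega)
    rw [show k + 2 - 1 = k + 1 by omega] at hrep2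
    by_cases hp : α ∈ L (k + 3)
    · have h1 := sq5 (α := α) (L := L) (win := win) (q := q) (k + 4)
      have h4 := sqFrom_succ (o := (ok α L win)) (ℒ := (ls α L q)) 4 (k + 4)
      have h1' : ucnt (ok α L win) (ls α L q) (k + 4) (sqFrom 1 (k + 4)) ≤ ucnt (ok α L win) (ls α L q) (k + 4) (sqAt 1 (k + 4)) +
          ucnt (ok α L win) (ls α L q) (k + 4) (sqAt 2 (k + 4)) + ucnt (ok α L win) (ls α L q) (k + 4) (sqAt 3 (k + 4)) +
          ucnt (ok α L win) (ls α L q) (k + 4) (sqFrom 4 (k + 4)) := by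
        have g1 := sqFrom_succ (o := (ok α L win)) (ℒ := (ls α L q)) 1 (k + 4)
        have g2 := sqFrom_succ (o := (ok α L win)) (ℒ := (ls α L q)) 2 (k + 4)
        have g3 := sqFrom_succ (o := (ok α L win)) (ℒ := (ls α L q)) 3 (k + 4)
        norm_num at g1 g2 g3
        linarith
      have s3 := sq_three' (α := α) (L := L) (q := q) H.hw (m := k + 4) (by omega)
      rw [show k + 4 - 1 = k + 3 by omega] at s3
      have hpp := H.hpat (k + 3) (by omega) (by omega) hp
      have ht := tail (o := (ok α L win)) (ℒ := (ls α L q)) (local_ok H.hw) hm hr (k + 4) 4 (by norm_num) (by omega) (by omega)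
      rw [show k + 4 + 1 - 4 = k + 1 by omega] at ht
      constructor
      · linarith
      · intro _ h5
        rw [X_zero (Or.inr h5)] at hb
        linarith
    · have h1 := sq3 (α := α) (L := L) (win := win) (q := q) (k + 4)
      have ht := tail (o := (ok α L win)) (ℒ := (ls α L q)) (local_ok H.hw) hm hr (k + 4) 3 (by norm_num) (by omega) (by omega)
      rw [show k + 4 + 1 - 3 = k + 2 by omega] at ht
      -- the previous step
      have hb' := base (α := α) (L := L) (q := q) H.hw (k + 3)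
      rw [card4 H.hL (by omega) hp, X_zero (Or.inr (by simpa using h3))] at hb'
      have s1' := sq_le (o := (ok α L win)) (ℒ := (ls α L q)) (local_ok H.hw) (m := k + 3) (t := 1) le_rfl (by omega)
      rw [show k + 3 + 1 - 1 = k + 3 by omega] at s1'
      have s2' := sq_two (α := α) (L := L) (q := q) H.hw (m := k + 3) (by omega)
      have h1' := sq3 (α := α) (L := L) (win := win) (q := q) (k + 3)
      have hwn' := H.hwin (k + 3) (by omega) (by omega) (fun j a b => hr j a (by omega))
      have ht' : ucnt (ok α L win) (ls α L q) (k + 3) (sqFrom 3 (k + 3)) ≤ (43 / 18 : ℚ) * N (ok α L win) (ls α L q) (k + 1) := by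
        rcases Nat.lt_or_ge k 7 with h | h
        · obtain rfl : k = 6 := by omega
          exact H.m9a (by omega)
        · have := tail (o := (ok α L win)) (ℒ := (ls α L q)) (local_ok H.hw) (m := k + 3) (by omega)
            (fun i a b => hr i a (by omega)) (k + 3) 3 (by norm_num) (by omega) (by omega)
          rw [show k + 3 + 1 - 3 = k + 1 by omega] at this
          exact this
      rw [show k + 3 + 1 = k + 4 by omega] at hb'
      constructor
      · by_cases hq2 : α ∈ L (k + 2)
        · have hpp := H.hpat (k + 2) (by omega) (by omega) hq2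
          have hrp := rep_pat (α := α) (L := L) (win := win) (q := q) (k + 2)
          linarith
        · have hs := (ih (k + 2) (by omega) (by omega)).2 hq2 hp
          linarith
      · intro _ h5
        rw [X_zero (Or.inr h5)] at hb
        linarith

theorem Hyp.claim (H : Hyp α L win q M) : ∀ m, 6 ≤ m → m ≤ M → Claim α L win q m := by
  intro m
  induction m using Nat.strong_induction_on with
  | _ m ih =>
    intro h6 hM
    rcases Nat.lt_or_ge m 10 with h | h
    · have hm : m = 6 ∨ m = 7 ∨ m = 8 ∨ m = 9 := by omega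
      rcases hm with rfl | rfl | rfl | rfl
      · have := H.m6 hM
        have n := N_nonneg (ok := (ok α L win)) (ℒ := (ls α L q)) 6
        unfold Claim
        norm_num
        exact ⟨by linarith, fun _ _ => by linarith⟩
      · have := H.m7 hM
        have n := N_nonneg (ok := (ok α L win)) (ℒ := (ls α L q)) 7
        unfold Claim
        norm_num
        exact ⟨by linarith, fun _ _ => by linarith⟩
      · have := H.m8 hM
        have n := N_nonneg (ok := (ok α L win)) (ℒ := (ls α L q)) 8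
        unfold Claim
        norm_num
        exact ⟨by linarith, fun _ _ => by linarith⟩
      · exact H.m9 hM
    · exact H.step h hM (fun i h1 h2 => ih i h2 h1 (by omega))

theorem ucnt_eq_card {o : ℕ → (ℕ → ℕ) → Prop} {ℒ : ℕ → Finset ℕ} (m : ℕ) (Q : (ℕ → ℕ) → Prop) :
    ucnt o ℒ m Q = (((U o ℒ m).filter Q).card : ℚ) := by
  unfold ucnt
  rw [← sum_filter, sum_const, nsmul_eq_mul, mul_one]

theorem cnt_eq_card {o : ℕ → (ℕ → ℕ) → Prop} {ℒ : ℕ → Finset ℕ} (m : ℕ) (Q : (ℕ → ℕ) → Prop) :
    cnt o ℒ m Q = (((W o ℒ m).filter Q).card : ℚ) := by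
  unfold cnt
  rw [← sum_filter, sum_const, nsmul_eq_mul, mul_one]

/-- **Phase 1.** -/
theorem Hyp.growth (H : Hyp α L win q M) (m : ℕ) (h6 : 6 ≤ m) (hM : m ≤ M) :
    (43 / 25 : ℚ) * N (ok α L win) (ls α L q) m ≤ N (ok α L win) (ls α L q) (m + 1) := (H.claim m h6 hM).1

end
end Pool.Agent.H409R3.Ph1
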